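import Pool.Agent.Q108.FB.Block
import Pool.Agent.Q108.FB.Fit
import Pool.Agent.Q108.FB.Aff

/-!
# A faithful block with few characters

Let `H = C_257 ⋊ C_16` (a Frobenius group with 16 + 16 = 32 conjugacy classes), let `E` be the
Heisenberg group on `F_3^H ⊕ F_3^H` and `G = E ⋊ H`. The characters of `G` over a nontrivial
character of `Z(E)` form a faithful `257`-block of positive defect with at most `32` irreducible
characters, `257` divides `|G : F(G)|`, and `32 < 257 / log₂ 257 = 32.10...`.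

The same construction works for every prime `p` and every divisor `e` of `p - 1`, see `family`.
-/

namespace Pool.Agent.Results.MP_9530fa_al.FaithfulBlock

open Pool.Agent.H254R3.IN Pool.Agent.Q108.FB

/-- The kernel of the block `B`: the intersection of the kernels `{g | χ(g) = χ(1)}` of the
irreducible characters `χ` in `B`. -/
def blockKernel {G : Type} [Group G] (B : Set (G → ℂ)) : Set G :=
  {g | ∀ χ ∈ B, χ g = χ 1}

/-- Valuation subrings `O` of `ℂ` whose maximal ideal contains `p` exist. -/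
theorem exists_place (p : ℕ) [hp : Fact p.Prime] :
    ∃ O : ValuationSubring ℂ, (p : ℂ) ∈ O.nonunits := by
  let A : Subring ℂ := (Int.castRingHom ℂ).range
  have hpA : (p : ℂ) ∈ A := ⟨(p : ℤ), by simp⟩
  let I : Ideal A := Ideal.span {⟨(p : ℂ), hpA⟩}
  have hI : I ≠ ⊤ := by
    intro h
    have h1 : (1 : A) ∈ I := by rw [h]; trivial
    obtain ⟨⟨_, n, rfl⟩, hn⟩ := Ideal.mem_span_singleton'.mp h1
    have h2 := congrArg Subtype.val hn
    have h3 : (n : ℂ) * (p : ℂ) = 1 := h2
    have h4 : n * (p : ℤ) = 1 := by exact_mod_cast h3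
    have h5 : (p : ℤ) ∣ 1 := ⟨n, by rw [mul_comm]; exact h4.symm⟩
    exact hp.out.one_lt.ne' (by exact_mod_cast Int.eq_one_of_dvd_one (by positivity) h5)
  obtain ⟨B, -, hB⟩ := I.image_subset_nonunits_valuationSubring hI
  exact ⟨B, hB ⟨_, Ideal.subset_span rfl, rfl⟩⟩

/-- The general construction: every finite group `H` of order divisible by `p` (and prime to `r`)
gives a faithful `p`-block of positive defect of `G = E ⋊ H` with at most `k(H)` characters. -/
theorem family {p r : ℕ} (hp : p.Prime) (hr : r.Prime) (H : Type) [Group H] [Fintype H]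
    (hpH : p ∣ Fintype.card H) (hrH : ¬ r ∣ Fintype.card H) :
    p ∣ (fitting (HG r H)).index ∧
    ∀ O : ValuationSubring ℂ, (p : ℂ) ∈ O.nonunits →
      ∃ B : Set (HG r H → ℂ), IsBlock O B ∧ B.Finite ∧ blockKernel B = {1} ∧
        (∃ D, IsDefectGroup p O B D) ∧ (∀ D, IsDefectGroup p O B D → D ≠ ⊥) ∧
        B.ncard ≤ Nat.card (ConjClasses H) := by
  classical
  have : Fact r.Prime := ⟨hr⟩
  have : Fact p.Prime := ⟨hp⟩
  have : NeZero r := ⟨hr.ne_zero⟩
  have := Fintype.ofFinite (HG r H)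
  have hpr : p ≠ r := by
    rintro rfl
    exact hrH hpH
  have hcop : Nat.Coprime p r := (Nat.coprime_primes hp hr).mpr hpr
  have hidx := dvd_index (H := H) hr hp hpr hpH
  refine ⟨hidx, fun O hO => ?_⟩
  let B : Set (HG r H → ℂ) :=
    {χ | IsIrr χ ∧ ∀ x, omega χ x - omega (theta r H) x ∈ O.nonunits}
  have hB : IsBlock O B := ⟨theta r H, theta_irr, rfl⟩
  have hθ : theta r H ∈ B := ⟨theta_irr, fun x => by rw [sub_self]; exact O.nonunits.zero_mem⟩
  have hfin : B.Finite :=
    (Pool.Agent.Helper884.IC.irr_finite (G := HG r H)).subset fun χ hχ => hχ.1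
  have hu : IsUnit (Fintype.card H : ZMod r) := by
    rw [ZMod.isUnit_iff_coprime]
    exact ((Nat.Prime.coprime_iff_not_dvd hr).mpr hrH).symm
  have hpG : p ∣ Nat.card (HG r H) := by
    rw [← Subgroup.card_mul_index (fitting (HG r H))]
    exact Dvd.dvd.mul_left hidx _
  refine ⟨B, hB, hfin, ?_, exists_defect hp B hB, ?_, ?_⟩
  · ext g
    simp only [blockKernel, Set.mem_ofPred_eq, Set.mem_singleton_iff]
    constructor
    · intro h
      exact theta_ker g one_ne_zero (h _ hθ)
    · rintro rfl χ _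
      rfl
  · intro D hD
    refine defect_ne_bot hp hO hpG B hB (theta r H) hθ (r ^ Fintype.card H) theta_one ?_ D hD
    intro h
    exact hpr ((Nat.prime_dvd_prime_iff_eq hp hr).mp (hp.dvd_of_dvd_pow h))
  · exact card_le hu B fun χ hχ => ⟨hχ.1, fun s g => block_zz hO hcop hχ.1 hχ.2 s g⟩

theorem pow_aux : ((2 : ℕ) : ZMod 257) ^ 2 ^ 3 ≠ 1 ∧ ((2 : ℕ) : ZMod 257) ^ 2 ^ (3 + 1) = 1 := by
  decide

/-- **There is a prime `p`, a finite group `G` with `p ∣ |G : F(G)|` and a faithful `p`-block `B`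
of `G` of positive defect with `k(B) < p / log₂ p`.** Here `O` is any valuation subring of `ℂ`
whose maximal ideal contains `p`. -/
theorem result : ∃ (p : ℕ) (_ : p.Prime) (G : Type) (_ : Group G) (_ : Finite G),
    p ∣ (fitting G).index ∧
    (∃ O : ValuationSubring ℂ, (p : ℂ) ∈ O.nonunits) ∧
    ∀ O : ValuationSubring ℂ, (p : ℂ) ∈ O.nonunits →
      ∃ B : Set (G → ℂ), IsBlock O B ∧ B.Finite ∧ blockKernel B = {1} ∧
        (∃ D, IsDefectGroup p O B D) ∧ (∀ D, IsDefectGroup p O B D → D ≠ ⊥) ∧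
        (B.ncard : ℝ) < p / Real.logb 2 p := by
  have hp : Nat.Prime 257 := by norm_num
  have : Fact (Nat.Prime 257) := ⟨hp⟩
  let u : (ZMod 257)ˣ := ZMod.unitOfCoprime 2 (by norm_num)
  let K : Subgroup (ZMod 257)ˣ := Subgroup.zpowers u
  have hK : Nat.card K = 16 := by
    rw [Nat.card_zpowers]
    have h1 := orderOf_eq_prime_pow (x := u) (p := 2) (n := 3) (by
      intro h
      have h2 := congrArg (fun v : (ZMod 257)ˣ => (v : ZMod 257)) h
      simp only [u, Units.val_pow_eq_pow_val, ZMod.coe_unitOfCoprime, Units.val_one] at h2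
      exact pow_aux.1 h2) (by
      apply Units.ext
      simp only [u, Units.val_pow_eq_pow_val, ZMod.coe_unitOfCoprime, Units.val_one]
      exact pow_aux.2)
    rw [h1]
    norm_num
  have hKi : K.index = 16 := by
    have h1 := Subgroup.card_mul_index K
    rw [hK, Nat.card_eq_fintype_card, ZMod.card_units] at h1
    omega
  have hcard : Fintype.card (Aff K) = 257 * 16 := by
    rw [Aff.card_eq, hK]
  obtain ⟨h1, h2⟩ := family (p := 257) (r := 3) hp (by norm_num) (Aff K)
    (by rw [hcard]; norm_num) (by rw [hcard]; norm_num)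
  have : NeZero 3 := ⟨by norm_num⟩
  refine ⟨257, hp, HG 3 (Aff K), inferInstance, inferInstance, h1, exists_place 257,
    fun O hO => ?_⟩
  obtain ⟨B, hB1, hB2, hB3, hB4, hB5, hB6⟩ := h2 O hO
  refine ⟨B, hB1, hB2, hB3, hB4, hB5, ?_⟩
  have h3 : B.ncard ≤ 32 := by
    have h4 := Aff.card_classes (K := K)
    rw [hK, hKi] at h4
    omega
  have h5 : (B.ncard : ℝ) ≤ 32 := by exact_mod_cast h3
  refine lt_of_le_of_lt h5 ?_
  have h6 : (0 : ℝ) < Real.logb 2 ((257 : ℕ) : ℝ) := Real.logb_pos (by norm_num) (by norm_num)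
  rw [lt_div_iff₀ h6]
  have h7 : (32 : ℝ) * Real.logb 2 ((257 : ℕ) : ℝ) = Real.logb 2 ((257 : ℝ) ^ 32) := by
    rw [Real.logb_pow]
    norm_num
  rw [h7, Real.logb_lt_iff_lt_rpow (by norm_num) (by positivity)]
  have h8 : ((2 : ℝ) ^ ((257 : ℕ) : ℝ)) = (2 : ℝ) ^ (257 : ℕ) := Real.rpow_natCast 2 257
  rw [h8, show (257 : ℕ) = 128 + 129 from rfl, pow_add]
  norm_num

end Pool.Agent.Results.MP_9530fa_al.FaithfulBlock
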